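import Pool.Agent.J4H78.HG.Stm

/-!
# Project HG (helper78), pieces COV and CTL: covering radius and lattice points in a ball (helper80)
-/

set_option autoImplicit false

open MeasureTheory Submodule
open Pool.Agent.J4H78.HG (S_COV S_CTL)

namespace Pool.Agent.J4H80.HG

/-- the lattice vector -/
noncomputable def lv {ι : Type} [Fintype ι] (b : Module.Basis ι ℝ (ι → ℝ)) (m : ι → ℤ) : ι → ℝ :=
  ∑ i, (m i : ℝ) • b i

lemma lv_sub {ι : Type} [Fintype ι] (b : Module.Basis ι ℝ (ι → ℝ)) (m n : ι → ℤ) :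
    lv b (m - n) = lv b m - lv b n := by
  simp only [lv, Pi.sub_apply, Int.cast_sub, sub_smul, Finset.sum_sub_distrib]

lemma mem_span_lv {ι : Type} [Fintype ι] (b : Module.Basis ι ℝ (ι → ℝ)) {x : ι → ℝ}
    (hx : x ∈ span ℤ (Set.range b)) : ∃ m : ι → ℤ, x = lv b m := by
  obtain ⟨c, hc⟩ := (Submodule.mem_span_range_iff_exists_fun ℤ).1 hx
  refine ⟨c, ?_⟩
  rw [← hc, lv]
  refine Finset.sum_congr rfl fun i _ => ?_
  rw [Int.cast_smul_eq_zsmul]

/-- disjoint balls modulo the lattice -/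
lemma pack {ι : Type} [Fintype ι] [DecidableEq ι] (h4 : Fintype.card ι = 4)
    (b : Module.Basis ι ℝ (ι → ℝ)) (r : ℝ) (hr : 0 < r) (J : ℕ) (p : ℕ → ι → ℝ)
    (hdis : ∀ i < J, ∀ j < J, ∀ m : ι → ℤ, (i ≠ j ∨ lv b m ≠ 0) → 2 * r ≤ ‖p i - p j - lv b m‖) :
    (J : ℝ) * (2 * r) ^ 4 ≤ |(Matrix.of b).det| := by
  set s : Set (ι → ℝ) := ⋃ i ∈ Finset.range J, Metric.ball (p i) r with hs
  have hmeas : MeasurableSet s := Finset.measurableSet_biUnion _ fun i _ => Metric.isOpen_ball.measurableSet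
  have hvol : volume s = ENNReal.ofReal (J * (2 * r) ^ 4) := by
    rw [hs, measure_biUnion_finset]
    · rw [Finset.sum_congr rfl fun i _ => Real.volume_pi_ball (p i) hr, Finset.sum_const,
        Finset.card_range, h4, nsmul_eq_mul, ENNReal.ofReal_mul (by positivity), ENNReal.ofReal_natCast]
    · intro i hi j hj hij
      rw [Finset.coe_range, Set.mem_Iio] at hi hj
      refine Metric.ball_disjoint_ball ?_
      have h := hdis i hi j hj 0 (Or.inl hij)
      have h0 : lv b 0 = 0 := by simp [lv]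
      rw [h0, sub_zero, ← dist_eq_norm] at h
      linarith
    · exact fun i _ => Metric.isOpen_ball.measurableSet
  by_contra hcon
  push Not at hcon
  have hlt : volume (ZSpan.fundamentalDomain b) < volume s := by
    rw [hvol, ZSpan.volume_fundamentalDomain]
    refine (ENNReal.ofReal_lt_ofReal_iff ?_).2 hcon
    exact lt_of_le_of_lt (abs_nonneg _) hcon
  have fund := ZSpan.isAddFundamentalDomain' b volume
  have hcount : Countable (span ℤ (Set.range b)).toAddSubgroup := by
    change Countable (span ℤ (Set.range b))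
    infer_instance
  obtain ⟨x, y, hxy, hnd⟩ := exists_pair_mem_lattice_not_disjoint_vadd fund hmeas.nullMeasurableSet hlt
  obtain ⟨w, hw1, hw2⟩ := Set.not_disjoint_iff.mp hnd
  obtain ⟨a, ha, rfl⟩ := hw1
  obtain ⟨c, hc, hac⟩ := hw2
  simp only [AddSubgroup.vadd_def, vadd_eq_add] at hac
  simp only [hs, Set.mem_iUnion, Finset.mem_range, Metric.mem_ball, exists_prop] at ha hc
  obtain ⟨i, hi, hai⟩ := ha
  obtain ⟨j, hj, hcj⟩ := hc
  have hmem : ((y : ι → ℝ) - (x : ι → ℝ)) ∈ span ℤ (Set.range b) := by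
    have h1 : (y : ι → ℝ) ∈ span ℤ (Set.range b) := y.2
    have h2 : (x : ι → ℝ) ∈ span ℤ (Set.range b) := x.2
    exact Submodule.sub_mem _ h1 h2
  obtain ⟨m, hm⟩ := mem_span_lv b hmem
  have hne : lv b m ≠ 0 := by
    rw [← hm]
    intro h
    exact hxy (Subtype.ext (sub_eq_zero.1 h).symm)
  have hd := hdis i hi j hj m (Or.inr hne)
  have heq : p i - p j - lv b m = (c - p j) - (a - p i) := by
    rw [← hm]
    have : (y : ι → ℝ) + c = (x : ι → ℝ) + a := hac
    have h3 : c = (x : ι → ℝ) + a - y := by rw [← this]; abel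
    rw [h3]; abel
  rw [heq] at hd
  have h5 := norm_sub_le (c - p j) (a - p i)
  rw [dist_eq_norm] at hai hcj
  linarith

theorem t_COV : S_COV := by
  refine ⟨128, by norm_num, ?_⟩
  intro ι _ _ h4 b l hl hmin z
  have hne : Nonempty (ι → ℤ) := ⟨0⟩
  have hbdd : BddBelow (Set.range fun m : ι → ℤ => ‖z - lv b m‖) := ⟨0, by rintro _ ⟨m, rfl⟩; exact norm_nonneg _⟩
  obtain ⟨m0, hm0⟩ := exists_lt_of_ciInf_lt
    (show (⨅ m : ι → ℤ, ‖z - lv b m‖) < (⨅ m : ι → ℤ, ‖z - lv b m‖) + l / 4 by linarith)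
  refine ⟨m0, ?_⟩
  have hnear : ∀ m : ι → ℤ, ‖z - lv b m0‖ - l / 4 ≤ ‖z - lv b m0 - lv b m‖ := by
    intro m
    have h1 := ciInf_le hbdd (m0 + m)
    have h2 : z - lv b (m0 + m) = z - lv b m0 - lv b m := by
      have : lv b (m0 + m) = lv b m0 + lv b m := by
        simp only [lv, Pi.add_apply, Int.cast_add, add_smul, Finset.sum_add_distrib]
      rw [this]; abel
    simp only [h2] at h1
    linarith
  change ‖z - lv b m0‖ ≤ _
  set w := z - lv b m0 with hw
  rcases eq_or_ne w 0 with h0 | h0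
  · rw [h0, norm_zero]; positivity
  have hwpos : 0 < ‖w‖ := norm_pos_iff.2 h0
  set J : ℕ := ⌊2 * ‖w‖ / l⌋₊ + 1 with hJ
  have hlt : 2 * ‖w‖ / l < J := by rw [hJ]; push_cast; exact Nat.lt_floor_add_one _
  set p : ℕ → ι → ℝ := fun j => ((j : ℝ) * (l / 2) / ‖w‖) • w with hp
  have hnp : ∀ j : ℕ, ‖p j‖ = (j : ℝ) * (l / 2) := by
    intro j
    rw [hp]; simp only
    rw [norm_smul, Real.norm_of_nonneg (by positivity)]
    field_simp
  have hle : ∀ j < J, (j : ℝ) * (l / 2) ≤ ‖w‖ := by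
    intro j hj
    have h1 : j ≤ ⌊2 * ‖w‖ / l⌋₊ := by omega
    have h2 : (j : ℝ) ≤ 2 * ‖w‖ / l := le_trans (Nat.cast_le.2 h1) (Nat.floor_le (by positivity))
    rw [le_div_iff₀ hl] at h2
    linarith
  -- the point `p j` is almost as near to `0` as to any other lattice point
  have hnp2 : ∀ j < J, ∀ m : ι → ℤ, ‖p j‖ - l / 4 ≤ ‖p j - lv b m‖ := by
    intro j hj m
    have h1 := hnear m
    have h2 : ‖w - p j‖ = ‖w‖ - (j : ℝ) * (l / 2) := by
      have : w - p j = (1 - (j : ℝ) * (l / 2) / ‖w‖) • w := by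
        rw [hp]; simp only [sub_smul, one_smul]
      rw [this, norm_smul, Real.norm_of_nonneg]
      · field_simp
      · rw [sub_nonneg, div_le_one hwpos]; exact hle j hj
    have h3 : w - lv b m = (w - p j) + (p j - lv b m) := by abel
    have h4' := norm_add_le (w - p j) (p j - lv b m)
    rw [← h3, h2] at h4'
    rw [hnp j]
    linarith
  have key : ∀ i < J, ∀ j < J, j < i → ∀ m : ι → ℤ, l / 4 ≤ ‖p i - p j - lv b m‖ := by
    intro i hi j hj hij m
    have h1 := hnp2 i hi m
    have h2 : p i - lv b m = (p i - p j - lv b m) + p j := by abel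
    have h3 := norm_add_le (p i - p j - lv b m) (p j)
    rw [← h2, hnp j] at h3
    rw [hnp i] at h1
    have h5 : (j : ℝ) + 1 ≤ i := by exact_mod_cast hij
    nlinarith
  have hpk := pack h4 b (l / 8) (by positivity) J p (by
    intro i hi j hj m hor
    rcases lt_trichotomy i j with h | h | h
    · have h1 := key j hj i hi h (-m)
      have h2 : p j - p i - lv b (-m) = -(p i - p j - lv b m) := by
        have : lv b (-m) = -lv b m := by simp [lv]
        rw [this]; abel
      rw [h2, norm_neg] at h1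
      linarith
    · subst h
      have hm : lv b m ≠ 0 := by
        rcases hor with h | h
        · exact absurd rfl h
        · exact h
      have hm0 : m ≠ 0 := by rintro rfl; exact hm (by simp [lv])
      have h1 := hmin m hm0
      change l ≤ ‖lv b m‖ at h1
      rw [sub_self, zero_sub, norm_neg]
      linarith
    · have h1 := key i hi j hj h m
      linarith)
  have hdet : (Matrix.of fun i => b i).det = (Matrix.of b).det := rfl
  rw [hdet]
  rw [le_div_iff₀ (by positivity)]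
  have h6 : 2 * ‖w‖ / l * (2 * (l / 8)) ^ 4 ≤ |(Matrix.of b).det| :=
    le_trans (mul_le_mul_of_nonneg_right hlt.le (by positivity)) hpk
  have h7 : 2 * ‖w‖ / l * (2 * (l / 8)) ^ 4 = ‖w‖ * l ^ 3 / 128 := by
    field_simp; ring
  rw [h7] at h6
  linarith

theorem t_CTL : S_CTL := by
  refine ⟨16, by norm_num, ?_⟩
  intro ι _ _ h4 b l hl hmin z R hR
  have hsep : ∀ m n : ι → ℤ, m ≠ n → l ≤ ‖lv b m - lv b n‖ := by
    intro m n hmn
    rw [← lv_sub]
    exact hmin _ (sub_ne_zero.2 hmn)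
  have hbound : ∀ T : Finset (ι → ℤ), (∀ m ∈ T, ‖z - lv b m‖ ≤ R) → (T.card : ℝ) ≤ 16 * (1 + R / l) ^ 4 := by
    intro T hT
    have hdis : (T : Set (ι → ℤ)).PairwiseDisjoint fun m => Metric.ball (lv b m) (l / 2) := by
      intro m hm n hn hmn
      refine Metric.ball_disjoint_ball ?_
      rw [dist_eq_norm]
      linarith [hsep m n hmn]
    have hvol : volume (⋃ m ∈ T, Metric.ball (lv b m) (l / 2)) = ENNReal.ofReal (T.card * l ^ 4) := by
      rw [measure_biUnion_finset hdis fun i _ => Metric.isOpen_ball.measurableSet,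
        Finset.sum_congr rfl fun i _ => Real.volume_pi_ball (lv b i) (by positivity), Finset.sum_const,
        h4, nsmul_eq_mul, ENNReal.ofReal_mul (by positivity), ENNReal.ofReal_natCast]
      congr 3; ring
    have hsub : (⋃ m ∈ T, Metric.ball (lv b m) (l / 2)) ⊆ Metric.ball z (R + l / 2) := by
      refine Set.iUnion₂_subset fun m hm => Metric.ball_subset_ball' ?_
      rw [dist_comm, dist_eq_norm]
      linarith [hT m hm]
    have hle := measure_mono (μ := volume) hsub
    rw [hvol, Real.volume_pi_ball z (by positivity), h4, ENNReal.ofReal_le_ofReal_iff (by positivity)] at hle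
    have h1 : (2 * (R + l / 2)) ^ 4 ≤ 16 * (1 + R / l) ^ 4 * l ^ 4 := by
      have h2 : 16 * (1 + R / l) ^ 4 * l ^ 4 = (2 * (l + R)) ^ 4 := by
        field_simp; ring
      rw [h2]
      exact pow_le_pow_left₀ (by positivity) (by linarith) 4
    exact le_of_mul_le_mul_right (hle.trans h1) (by positivity)
  have hfin : {m : ι → ℤ | ‖z - lv b m‖ ≤ R}.Finite := by
    by_contra hinf
    obtain ⟨N, hN⟩ := exists_nat_gt (16 * (1 + R / l) ^ 4)
    obtain ⟨T, hT, hc⟩ := (show {m : ι → ℤ | ‖z - lv b m‖ ≤ R}.Infinite from hinf).exists_subset_card_eq N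
    have := hbound T fun m hm => hT hm
    rw [hc] at this
    linarith
  refine ⟨hfin, ?_⟩
  change (({m : ι → ℤ | ‖z - lv b m‖ ≤ R}).ncard : ℝ) ≤ _
  rw [Set.ncard_eq_toFinset_card _ hfin]
  exact hbound _ fun m hm => (hfin.mem_toFinset.1 hm)

end Pool.Agent.J4H80.HG
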