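import Pool.Agent.J4H78.HG.Stm3
import Pool.Agent.J4H84.HG.Uni

/-!
# Project HG3 (helper78), piece REG: the number `R` of a real quadratic field is twice the regulator (helper80)
-/

set_option autoImplicit false
set_option linter.unusedSectionVars false
set_option linter.unusedVariables false

open NumberField Complex Filter Topology MeasureTheory
open NumberField.Units

namespace Pool.Agent.J4H80.HG

open Pool.Agent.J4H78.GP (QD)
open Pool.Agent.J4H78.HG (la IsReg S_REG)
open Pool.Agent.J4H84.HG (two_places unit_prod)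

section

variable {K : Type} [Field K] [NumberField K]

lemma unit_pos (w : InfinitePlace K) (u : (𝓞 K)ˣ) : 0 < w ((u : 𝓞 K) : K) := by
  refine InfinitePlace.pos_iff.mpr ?_
  have : (u : 𝓞 K) ≠ 0 := u.ne_zero
  exact_mod_cast this

/-- `u ↦ log |u|_w` as a homomorphism -/
noncomputable def lg (w : InfinitePlace K) : Additive (𝓞 K)ˣ →+ ℝ where
  toFun u := Real.log (w (((Additive.toMul u : (𝓞 K)ˣ) : 𝓞 K) : K))
  map_zero' := by simp
  map_add' u v := by
    rw [toMul_add, Units.val_mul]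
    rw [show (((((Additive.toMul u : (𝓞 K)ˣ) : 𝓞 K) * ((Additive.toMul v : (𝓞 K)ˣ) : 𝓞 K) : 𝓞 K)) : K) =
      (((Additive.toMul u : (𝓞 K)ˣ) : 𝓞 K) : K) * (((Additive.toMul v : (𝓞 K)ˣ) : 𝓞 K) : K) from
      map_mul (algebraMap (𝓞 K) K) _ _, map_mul,
      Real.log_mul (unit_pos w _).ne' (unit_pos w _).ne']

lemma lg_apply (w : InfinitePlace K) (u : (𝓞 K)ˣ) :
    lg w (Additive.ofMul u) = Real.log (w ((u : 𝓞 K) : K)) := rfl

lemma lg_torsion (w : InfinitePlace K) (ζ : torsion K) : lg w (Additive.ofMul (ζ : (𝓞 K)ˣ)) = 0 := by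
  rw [lg_apply]
  have h := (mem_torsion K).1 ζ.2 w
  rw [h, Real.log_one]

/-- every unit is, up to a root of unity, a power of the fundamental unit -/
lemma lg_eq (w : InfinitePlace K) (h1 : Subsingleton (Fin (rank K))) (i : Fin (rank K)) (u : (𝓞 K)ˣ) :
    ∃ k : ℤ, ∀ w : InfinitePlace K,
      Real.log (w ((u : 𝓞 K) : K)) = k * Real.log (w ((fundSystem K i : 𝓞 K) : K)) := by
  obtain ⟨⟨ζ, e⟩, h, -⟩ := exist_unique_eq_mul_prod K u
  refine ⟨e i, fun v => ?_⟩
  simp only at h
  have h2 : ∏ j, (fundSystem K j) ^ (e j) = (fundSystem K i) ^ (e i) := by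
    rw [Finset.prod_eq_single i (fun j _ hj => absurd (Subsingleton.elim j i) hj)
      (fun hi => absurd (Finset.mem_univ i) hi)]
  rw [h2] at h
  rw [← lg_apply v u, h, ofMul_mul, map_add, lg_torsion, zero_add, ofMul_zpow, map_zsmul, lg_apply,
    zsmul_eq_mul]

end

theorem t_REG : S_REG := by
  intro p K _ _ _ hq w w' hne R ⟨hR, ⟨u, hu⟩, hall⟩
  classical
  have hd := hq.deg
  obtain ⟨hp, hr⟩ := two_places hd w w' hne
  -- one place different from `w'`
  have huniq : ∀ x : {v : InfinitePlace K // v ≠ w'}, x = ⟨w, hne⟩ := by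
    rintro ⟨v, hv⟩
    rcases hp v with h | h
    · exact Subtype.ext h
    · exact absurd h hv
  let U : Unique {v : InfinitePlace K // v ≠ w'} := ⟨⟨⟨w, hne⟩⟩, huniq⟩
  have hcard : Fintype.card {v : InfinitePlace K // v ≠ w'} = Fintype.card (Fin (rank K)) := by
    rw [Fintype.card_fin, rank, Fintype.card_subtype_compl, Fintype.card_subtype_eq]
  let e : {v : InfinitePlace K // v ≠ w'} ≃ Fin (rank K) := Fintype.equivOfCardEq hcard
  have hsub : Subsingleton (Fin (rank K)) := e.symm.injective.subsingleton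
  have hreg := regulator_eq_det (K := K) w' e
  rw [Matrix.det_unique] at hreg
  have hdef : (default : {v : InfinitePlace K // v ≠ w'}) = ⟨w, hne⟩ := huniq _
  rw [hdef] at hreg
  simp only [Matrix.of_apply] at hreg
  rw [InfinitePlace.mult_isReal ⟨w, hr w⟩, Nat.cast_one, one_mul] at hreg
  set i : Fin (rank K) := e ⟨w, hne⟩ with hi
  have hla : ∀ x : (𝓞 K)ˣ, la w w' ((x : 𝓞 K) : K) = 2 * Real.log (w ((x : 𝓞 K) : K)) := by
    intro x
    have h1 := unit_prod hd w w' hne x
    have h2 : Real.log (w ((x : 𝓞 K) : K)) + Real.log (w' ((x : 𝓞 K) : K)) = 0 := by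
      rw [← Real.log_mul (unit_pos w x).ne' (unit_pos w' x).ne', h1, Real.log_one]
    unfold la
    linarith
  obtain ⟨k, hk⟩ := lg_eq w hsub i u
  obtain ⟨j, hj⟩ := hall (fundSystem K i)
  have hk' : R = k * la w w' ((fundSystem K i : 𝓞 K) : K) := by
    rw [← hu, hla, hla, hk w]
    ring
  have hR0 : 0 < R := by linarith
  have hkj : ((k * j : ℤ) : ℝ) = 1 := by
    have : R * ((k : ℝ) * j) = R * 1 := by
      rw [hj] at hk'
      linarith
    push_cast
    exact mul_left_cancel₀ hR0.ne' this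
  have hkj' : k * j = 1 := by exact_mod_cast hkj
  have hj1 : |(j : ℝ)| = 1 := by
    have h : |j| = 1 := by
      have : IsUnit j := IsUnit.of_mul_eq_one k (by rw [mul_comm]; exact hkj')
      exact Int.isUnit_iff_abs_eq.1 this
    rw [← Int.cast_abs, h, Int.cast_one]
  have h5 : |la w w' ((fundSystem K i : 𝓞 K) : K)| = R := by
    rw [hj, abs_mul, hj1, one_mul, abs_of_pos hR0]
  rw [hla, abs_mul, abs_of_pos (two_pos : (0 : ℝ) < 2)] at h5
  rw [hreg]
  exact h5.symm

end Pool.Agent.J4H80.HG
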