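import Pool.Agent.J4H78.HG.Stm
import Pool.Agent.J4H21.GP.Unf

/-!
# Project HG (helper78), piece UNH: unfolding of the integral of the lattice sum over the units (helper80)
(after `J4H21/GP/Unf.lean`, with tents in the place of the Gaussian)
-/

set_option autoImplicit false
set_option linter.unusedSectionVars false
set_option maxHeartbeats 4000000

open NumberField Complex Filter Topology MeasureTheory Set
open NumberField.Units NumberField.Units.dirichletUnitTheorem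
open Pool.Agent.Y773
open Pool.Agent.J4H21.GP (A0 AE AE_apply sum_place rank_eq el_split unfold_Q measurableSet_cube prod_av')
open Pool.Agent.J4H78.HG (ph V tc S_UNH)

namespace Pool.Agent.J4H80.HG

/-! ### tents -/

/-- the tent -/
noncomputable def Tn (v : ℝ) : ℝ := max 0 (1 - |v|)

lemma Tn_nonneg (v : ℝ) : 0 ≤ Tn v := le_max_left _ _

lemma Tn_le (v : ℝ) : Tn v ≤ 1 := max_le zero_le_one (by linarith [abs_nonneg v])

lemma continuous_Tn : Continuous Tn := by unfold Tn; fun_prop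

lemma Tn_eq_zero {v : ℝ} (h : 1 ≤ |v|) : Tn v = 0 := max_eq_left (by linarith)

lemma abs_lt_of_Tn {v : ℝ} (h : Tn v ≠ 0) : |v| < 1 := by
  by_contra hc
  exact h (Tn_eq_zero (not_lt.1 hc))

lemma integrable_Tn (a : ℝ) : Integrable fun v : ℝ => Tn (a + v) := by
  refine Continuous.integrable_of_hasCompactSupport (continuous_Tn.comp (continuous_const.add continuous_id)) ?_
  refine HasCompactSupport.intro (isCompact_Icc (a := -a - 1) (b := -a + 1)) fun v hv => ?_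
  refine Tn_eq_zero ?_
  by_contra hc
  push Not at hc
  rw [abs_lt] at hc
  exact hv ⟨by linarith [hc.1], by linarith [hc.2]⟩

lemma ph_exp (v : ℝ) : ph (Real.exp v) = Tn v := by
  unfold ph Tn
  rw [if_pos (Real.exp_pos v), Real.log_exp]

lemma ph_zero : ph 0 = 0 := by
  unfold ph
  rw [if_neg (lt_irrefl _)]

/-- the product of four tents -/
noncomputable def Pt (L : ℝ) (y : Fin 3 → ℝ) : ℝ :=
  Tn (L / 4 + y 0) * Tn (L / 4 + y 1) * Tn (L / 4 + y 2) * Tn (L / 4 + (-(y 0 + y 1 + y 2)))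

lemma V_eq {u : ℝ} (hu : 0 < u) : V u = ∫ y : Fin 3 → ℝ, Pt (Real.log u) y := by
  have h : ∀ v : ℝ, ph (u ^ (1 / 4 : ℝ) * Real.exp v) = Tn (Real.log u / 4 + v) := by
    intro v
    rw [Real.rpow_def_of_pos hu, ← Real.exp_add, ph_exp]
    congr 1
    ring
  unfold V Pt
  refine integral_congr_ae (Eventually.of_forall fun y => ?_)
  simp only [h]

lemma Pt_nonneg (L : ℝ) (y : Fin 3 → ℝ) : 0 ≤ Pt L y := by
  unfold Pt
  have := Tn_nonneg
  exact mul_nonneg (mul_nonneg (mul_nonneg (this _) (this _)) (this _)) (this _)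

lemma continuous_Pt (L : ℝ) : Continuous (Pt L) := by
  unfold Pt
  have := continuous_Tn
  fun_prop

lemma Pt_le (L : ℝ) (y : Fin 3 → ℝ) : Pt L y ≤ ∏ i, Tn (L / 4 + y i) := by
  unfold Pt
  rw [Fin.prod_univ_three]
  have := Tn_nonneg
  exact mul_le_of_le_one_right (mul_nonneg (mul_nonneg (this _) (this _)) (this _)) (Tn_le _)

lemma integrable_prodT (L : ℝ) : Integrable fun y : Fin 3 → ℝ => ∏ i, Tn (L / 4 + y i) :=
  Integrable.fintype_prod (f := fun (_ : Fin 3) (v : ℝ) => Tn (L / 4 + v)) fun _ => integrable_Tn _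

lemma integrable_Pt (L : ℝ) : Integrable (Pt L) := by
  refine Integrable.mono' (integrable_prodT L) (continuous_Pt L).aestronglyMeasurable
    (Eventually.of_forall fun y => ?_)
  rw [Real.norm_eq_abs, abs_of_nonneg (Pt_nonneg L y)]
  exact Pt_le L y

lemma V_nonneg' {u : ℝ} (hu : 0 < u) : 0 ≤ V u := by
  rw [V_eq hu]
  exact integral_nonneg fun y => Pt_nonneg _ y

lemma V_le' : ∃ C : ℝ, 0 < C ∧ ∀ u : ℝ, 0 < u → V u ≤ C * u ^ (-(2 : ℝ)) := by
  have hI : 0 ≤ (∫ v : ℝ, Tn v) := integral_nonneg Tn_nonneg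
  refine ⟨((∫ v : ℝ, Tn v) ^ 3 + 1) * Real.exp 8, by positivity, fun u hu => ?_⟩
  rcases le_or_gt 4 (Real.log u) with h | h
  · have h0 : V u = 0 := by
      rw [V_eq hu]
      have : ∀ y, Pt (Real.log u) y = 0 := by
        intro y
        by_contra hc
        unfold Pt at hc
        have h1 := abs_lt_of_Tn (left_ne_zero_of_mul (left_ne_zero_of_mul (left_ne_zero_of_mul hc)))
        have h2 := abs_lt_of_Tn (right_ne_zero_of_mul (left_ne_zero_of_mul (left_ne_zero_of_mul hc)))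
        have h3 := abs_lt_of_Tn (right_ne_zero_of_mul (left_ne_zero_of_mul hc))
        have h4 := abs_lt_of_Tn (right_ne_zero_of_mul hc)
        rw [abs_lt] at h1 h2 h3 h4
        linarith [h1.2, h2.2, h3.2, h4.2]
      simp [this]
    rw [h0]
    have := Real.rpow_pos_of_pos hu (-(2 : ℝ))
    positivity
  · have h1 : V u ≤ (∫ v : ℝ, Tn v) ^ 3 := by
      rw [V_eq hu]
      calc ∫ y : Fin 3 → ℝ, Pt (Real.log u) y ≤ ∫ y : Fin 3 → ℝ, ∏ i, Tn (Real.log u / 4 + y i) :=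
            integral_mono (integrable_Pt _) (integrable_prodT _) fun y => Pt_le _ y
        _ = ∏ _i : Fin 3, ∫ v : ℝ, Tn (Real.log u / 4 + v) :=
            integral_fintype_prod_volume_eq_prod (fun (_ : Fin 3) (v : ℝ) => Tn (Real.log u / 4 + v))
        _ = (∫ v : ℝ, Tn v) ^ 3 := by
            rw [Finset.prod_const, Finset.card_univ, Fintype.card_fin,
              integral_add_left_eq_self (fun v : ℝ => Tn v) (Real.log u / 4)]
    have h2 : Real.exp (-8) ≤ u ^ (-(2 : ℝ)) := by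
      rw [Real.rpow_def_of_pos hu]
      exact Real.exp_le_exp.2 (by linarith)
    have h3 : 1 ≤ Real.exp 8 * u ^ (-(2 : ℝ)) := by
      have : Real.exp 8 * Real.exp (-8) = 1 := by rw [← Real.exp_add]; simp
      calc (1 : ℝ) = Real.exp 8 * Real.exp (-8) := this.symm
        _ ≤ _ := mul_le_mul_of_nonneg_left h2 (Real.exp_pos _).le
    calc V u ≤ (∫ v : ℝ, Tn v) ^ 3 + 1 := by linarith
      _ = ((∫ v : ℝ, Tn v) ^ 3 + 1) * 1 := (mul_one _).symm
      _ ≤ ((∫ v : ℝ, Tn v) ^ 3 + 1) * (Real.exp 8 * u ^ (-(2 : ℝ))) :=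
          mul_le_mul_of_nonneg_left h3 (by positivity)
      _ = _ := by ring

variable {K : Type} [Field K] [NumberField K] [IsTotallyReal K]

/-! ### the integrand -/

/-- the product of the tents over the places -/
noncomputable def Ft {K : Type} [Field K] [NumberField K] (b : InfinitePlace K → ℝ) (p : PP K) : ℝ :=
  ∏ w, ph (Real.exp (el K p w / 2) * b w)

lemma exp_mul_eq {b : InfinitePlace K → ℝ} (hb : ∀ w, 0 < b w) (p : PP K) (w : InfinitePlace K) :
    ph (Real.exp (el K p w / 2) * b w) = Tn (el K p w / 2 + Real.log (b w)) := by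
  rw [← ph_exp, Real.exp_add, Real.exp_log (hb w)]

lemma Ft_nonneg {b : InfinitePlace K → ℝ} (hb : ∀ w, 0 < b w) (p : PP K) : 0 ≤ Ft b p :=
  Finset.prod_nonneg fun w _ => by rw [exp_mul_eq hb]; exact Tn_nonneg _

lemma prod_place (σ : Fin 4 ≃ InfinitePlace K) (f : InfinitePlace K → ℝ) :
    ∏ w, f w = f (σ (Fin.castSucc 0)) * f (σ (Fin.castSucc 1)) * f (σ (Fin.castSucc 2)) *
      f (σ (Fin.last 3)) := by
  rw [← σ.prod_comp, Fin.prod_univ_castSucc, Fin.prod_univ_three]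

/-- half of the coordinates -/
noncomputable def AH (hn : Module.finrank ℚ K = 4) (σ : Fin 4 ≃ InfinitePlace K) :
    (Fin (rank K) → ℝ) ≃ₗ[ℝ] (Fin 3 → ℝ) :=
  (AE hn σ).trans (LinearEquiv.smulOfNeZero ℝ (Fin 3 → ℝ) (1 / 2 : ℝ) (by norm_num))

lemma AH_apply (hn : Module.finrank ℚ K = 4) (σ : Fin 4 ≃ InfinitePlace K)
    (θ : Fin (rank K) → ℝ) (j : Fin 3) : AH hn σ θ j = 1 / 2 * el K (0, θ) (σ j.castSucc) := by
  rw [← AE_apply hn σ θ j]
  rfl

/-- the translation -/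
noncomputable def ah (σ : Fin 4 ≃ InfinitePlace K) (b : InfinitePlace K → ℝ) (j : Fin 3) : ℝ :=
  Real.log (b (σ j.castSucc)) - 1 / 4 * Real.log (∏ w, b w)

lemma Ft_eq (hn : Module.finrank ℚ K = 4) (σ : Fin 4 ≃ InfinitePlace K) {b : InfinitePlace K → ℝ}
    (hb : ∀ w, 0 < b w) {t : ℝ} (ht : 0 < t) (θ : Fin (rank K) → ℝ) :
    Ft b ((1 / 2) * Real.log t, θ) = Pt (Real.log ((∏ w, b w) * t)) (AH hn σ θ + ah σ b) := by
  have hN : 0 < ∏ w, b w := Finset.prod_pos fun w _ => hb w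
  obtain ⟨N, hNe⟩ : ∃ N : ℝ, N = ∏ w, b w := ⟨_, rfl⟩
  rw [← hNe] at hN ⊢
  obtain ⟨z, hz⟩ : ∃ z : InfinitePlace K → ℝ, z = fun w =>
    1 / 2 * el K (0, θ) w + (Real.log (b w) - 1 / 4 * Real.log N) := ⟨_, rfl⟩
  have hsum : ∑ w, z w = 0 := by
    rw [hz, Finset.sum_add_distrib, ← Finset.mul_sum, sum_el, Finset.sum_sub_distrib,
      ← Real.log_prod (fun w _ => (hb w).ne'), ← hNe, Finset.sum_const, Finset.card_univ,
      card_place, hn]
    simp
  have hterm : ∀ w, ph (Real.exp (el K ((1 / 2) * Real.log t, θ) w / 2) * b w) =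
      Tn (Real.log (N * t) / 4 + z w) := by
    intro w
    rw [exp_mul_eq hb, el_split, hz, Real.log_mul hN.ne' ht.ne']
    congr 1
    ring
  have hlast : z (σ (Fin.last 3)) = -(z (σ (Fin.castSucc 0)) + z (σ (Fin.castSucc 1)) +
      z (σ (Fin.castSucc 2))) := by
    rw [sum_place σ] at hsum
    linarith
  unfold Ft Pt
  rw [Finset.prod_congr rfl fun w _ => hterm w, prod_place σ, hlast]
  have hj : ∀ j : Fin 3, (AH hn σ θ + ah σ b) j = z (σ j.castSucc) := by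
    intro j
    rw [Pi.add_apply, AH_apply, hz]
    unfold ah
    rw [← hNe]
  rw [hj 0, hj 1, hj 2]

/-- the integral over the whole space -/
lemma int_Ft (hn : Module.finrank ℚ K = 4) : ∃ c : ℝ, 0 < c ∧
    ∀ b : InfinitePlace K → ℝ, (∀ w, 0 < b w) → ∀ t : ℝ, 0 < t →
      Integrable (fun θ : Fin (rank K) → ℝ => ((Ft b ((1 / 2) * Real.log t, θ) : ℝ) : ℂ)) ∧
      ∫ θ : Fin (rank K) → ℝ, ((Ft b ((1 / 2) * Real.log t, θ) : ℝ) : ℂ) =
        c * ((V ((∏ w, b w) * t) : ℝ) : ℂ) := by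
  have hcard : Fintype.card (InfinitePlace K) = 4 := by rw [card_place, hn]
  obtain ⟨σ⟩ : Nonempty (Fin 4 ≃ InfinitePlace K) :=
    ⟨(Fintype.equivFinOfCardEq hcard).symm⟩
  obtain ⟨c, hc, h1, -, h3⟩ := exists_vol_gen (volume : Measure (Fin (rank K) → ℝ))
    (volume : Measure (Fin 3 → ℝ)) (AH hn σ)
  refine ⟨c, hc, fun b hb t ht => ?_⟩
  have hN : 0 < (∏ w, b w) * t := mul_pos (Finset.prod_pos fun w _ => hb w) ht
  have hF : (fun θ : Fin (rank K) → ℝ => ((Ft b ((1 / 2) * Real.log t, θ) : ℝ) : ℂ)) = fun θ =>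
      (fun y : Fin 3 → ℝ => ((Pt (Real.log ((∏ w, b w) * t)) (y + ah σ b) : ℝ) : ℂ)) (AH hn σ θ) := by
    funext θ
    rw [Ft_eq hn σ hb ht θ]
  rw [hF]
  have hi : Integrable (fun y : Fin 3 → ℝ =>
      ((Pt (Real.log ((∏ w, b w) * t)) (y + ah σ b) : ℝ) : ℂ)) :=
    ((integrable_Pt _).comp_add_right (ah σ b)).ofReal
  refine ⟨h3 _ hi, ?_⟩
  refine (h1 (fun y : Fin 3 → ℝ =>
    ((Pt (Real.log ((∏ w, b w) * t)) (y + ah σ b) : ℝ) : ℂ))).trans ?_
  rw [integral_add_right_eq_self (fun y : Fin 3 → ℝ =>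
    ((Pt (Real.log ((∏ w, b w) * t)) y : ℝ) : ℂ)), integral_complex_ofReal, V_eq hN]

lemma Ft_unit (J : PIdl K) (ζ : torsion K) (m : Fin (rank K) → ℤ) (p : PP K) :
    Ft (av (xE K (J, (ζ, m))).1) p = Ft (av (gen J)) (p.1, p.2 + lp m) := by
  unfold Ft
  refine Finset.prod_congr rfl fun w _ => ?_
  congr 1
  have h1 : av (xE K (J, (ζ, m))).1 w =
      Real.exp (∑ i, (m i : ℝ) * Real.log (w ((fundSystem K i : (𝓞 K)ˣ) : K))) * av (gen J) w := by
    unfold av
    rw [xE_apply]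
    have : (((unE K (ζ, m) : (𝓞 K)ˣ) * gen J : 𝓞 K) : K) =
      ((unE K (ζ, m) : (𝓞 K)ˣ) : K) * (gen J : K) := map_mul (algebraMap (𝓞 K) K) _ _
    rw [this, map_mul, place_unE]
  rw [h1, ← mul_assoc, ← Real.exp_add]
  congr 2
  simp only [el, LinearMap.coe_mk, AddHom.coe_mk, Pi.add_apply, Pool.Agent.Y773.lp, add_mul,
    Finset.sum_add_distrib]
  have h2 : ∑ i, (m i : ℝ) * (2 * Real.log (w ((fundSystem K i : (𝓞 K)ˣ) : K))) =
      2 * ∑ i, (m i : ℝ) * Real.log (w ((fundSystem K i : (𝓞 K)ˣ) : K)) := by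
    rw [Finset.mul_sum]
    exact Finset.sum_congr rfl fun i _ => by ring
  rw [h2]
  ring

/-- the sum over the units -/
lemma unfold_JT {c : ℝ} {t : ℝ} (ht : 0 < t)
    (hint : ∀ b : InfinitePlace K → ℝ, (∀ w, 0 < b w) → ∀ t : ℝ, 0 < t →
      Integrable (fun θ : Fin (rank K) → ℝ => ((Ft b ((1 / 2) * Real.log t, θ) : ℝ) : ℂ)) ∧
      ∫ θ : Fin (rank K) → ℝ, ((Ft b ((1 / 2) * Real.log t, θ) : ℝ) : ℂ) =
        c * ((V ((∏ w, b w) * t) : ℝ) : ℂ)) (J : PIdl K) :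
    HasSum (fun z : torsion K × (Fin (rank K) → ℤ) =>
      ∫ θ in cube K, ((Ft (av (xE K (J, z)).1) ((1 / 2) * Real.log t, θ) : ℝ) : ℂ))
      ((Nat.card (torsion K) : ℂ) *
        (c * ((V ((Ideal.absNorm J.1 : ℝ) * t) : ℝ) : ℂ))) := by
  classical
  have : Fintype (torsion K) := Fintype.ofFinite _
  have hpos := av_pos (gen_ne_zero J)
  obtain ⟨h1, h2⟩ := hint (av (gen J)) hpos t ht
  rw [prod_av' (gen_ne_zero J), span_gen] at h2
  have h3 := unfold_Q _ h1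
  rw [h2] at h3
  set V' : ℂ := c * ((V ((Ideal.absNorm J.1 : ℝ) * t) : ℝ) : ℂ) with hV
  have e1 : ∀ ζ m, (∫ θ in cube K, ((Ft (av (xE K (J, (ζ, m))).1)
        ((1 / 2) * Real.log t, θ) : ℝ) : ℂ)) =
      ∫ θ in {θ : Fin (rank K) → ℝ | ∀ i, ⌊θ i⌋ = 0},
        ((Ft (av (gen J)) ((1 / 2) * Real.log t, θ + lp m) : ℝ) : ℂ) := by
    intro ζ m
    exact integral_congr_ae (Eventually.of_forall fun θ => congrArg Complex.ofReal
      (Ft_unit J ζ m ((1 / 2) * Real.log t, θ)))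
  have h5 : Summable fun z : torsion K × (Fin (rank K) → ℤ) =>
      ∫ θ in cube K, ((Ft (av (xE K (J, z)).1) ((1 / 2) * Real.log t, θ) : ℝ) : ℂ) := by
    refine Summable.of_norm ?_
    refine (summable_prod_of_nonneg (fun z => norm_nonneg _)).mpr ⟨fun ζ => ?_, Summable.of_finite⟩
    simp only [e1]
    exact h3.summable.norm
  have h6 := h5.hasSum
  rw [h5.tsum_prod] at h6
  have h7 : ∀ ζ : torsion K, ∑' m : Fin (rank K) → ℤ,
      (∫ θ in cube K, ((Ft (av (xE K (J, (ζ, m))).1)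
        ((1 / 2) * Real.log t, θ) : ℝ) : ℂ)) = V' := by
    intro ζ
    simp only [e1]
    exact h3.tsum_eq
  simp only [h7] at h6
  rw [tsum_fintype, Finset.sum_const, nsmul_eq_mul, Finset.card_univ,
    ← Nat.card_eq_fintype_card] at h6
  exact h6

lemma Ph_zero_eq (r : InfinitePlace K → ℝ) (hr : ∀ w, 0 ≤ r w) :
    Pool.Agent.J4H78.HG.Ph (fun _ => 0) r = ((∏ w, ph (r w) : ℝ) : ℂ) := by
  unfold Pool.Agent.J4H78.HG.Ph
  push_cast
  refine Finset.prod_congr rfl fun w _ => ?_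
  rw [abs_of_nonneg (hr w)]
  simp

/-- invariant functions are functions of the principal ideal -/
lemma inv_toP {Ψ : 𝓞 K → ℂ} (hu : ∀ (u : (𝓞 K)ˣ) (x : 𝓞 K), Ψ (u * x) = Ψ x)
    (x : {x : 𝓞 K // x ≠ 0}) : Ψ x.1 = Ψ (gen (toP x)) := by
  obtain ⟨⟨J, z⟩, rfl⟩ := (xE K).surjective x
  rw [toP_xE]
  have h1 : (xE K (J, z)).1 = (unE K z : 𝓞 K) * gen J := rfl
  rw [h1, hu]

lemma tc_eq {Ψ : 𝓞 K → ℂ} (hu : ∀ (u : (𝓞 K)ˣ) (x : 𝓞 K), Ψ (u * x) = Ψ x) (p : PP K) :
    tc (fun _ => 0) Ψ (el K p) =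
      ∑' x : {x : 𝓞 K // x ≠ 0}, Ψ (gen (toP x)) * ((Ft (av x.1) p : ℝ) : ℂ) := by
  unfold tc
  have hterm : ∀ x : 𝓞 K, Ψ x * Pool.Agent.J4H78.HG.Ph (fun _ => 0)
      (fun w => Real.exp (el K p w / 2) * w (x : K)) = Ψ x * ((Ft (av x) p : ℝ) : ℂ) := by
    intro x
    rw [Ph_zero_eq _ fun w => mul_nonneg (Real.exp_pos _).le (apply_nonneg w _)]
    rfl
  simp only [hterm]
  have hsupp : Function.support (fun x : 𝓞 K => Ψ x * ((Ft (av x) p : ℝ) : ℂ)) ⊆ {x | x ≠ 0} := by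
    intro x hx h0
    apply hx
    change x = 0 at h0
    simp only
    have h1 : Ft (av x) p = 0 := by
      obtain ⟨w⟩ : Nonempty (InfinitePlace K) := inferInstance
      refine Finset.prod_eq_zero (Finset.mem_univ w) ?_
      have h2 : av x w = 0 := by
        unfold av
        rw [h0]
        simp
      rw [h2, mul_zero, ph_zero]
    rw [h1]
    simp
  rw [← tsum_subtype_eq_of_support_subset hsupp]
  refine tsum_congr fun x => ?_
  rw [← inv_toP hu x]

theorem t_UNH : S_UNH := by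
  intro K _ _ _ hn
  classical
  obtain ⟨c, hc, hint⟩ := int_Ft (K := K) hn
  have htor : 0 < Nat.card (torsion K) := Nat.card_pos
  obtain ⟨CV, hCV, hVle⟩ := V_le'
  refine ⟨Nat.card (torsion K) * c, by positivity, fun Ψ B hB hu t ht => ?_⟩
  have hB0 : 0 ≤ B := (norm_nonneg _).trans (hB 0)
  have hJ1 : ∀ J : PIdl K, 0 < (Ideal.absNorm J.1 : ℝ) := by
    intro J
    have : Ideal.absNorm J.1 ≠ 0 := by
      rw [Ne, Ideal.absNorm_eq_zero_iff]
      exact J.2.1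
    exact_mod_cast Nat.pos_of_ne_zero this
  have hVn : ∀ J : PIdl K, 0 ≤ V ((Ideal.absNorm J.1 : ℝ) * t) := fun J =>
    V_nonneg' (mul_pos (hJ1 J) ht)
  have hWs : Summable fun J : PIdl K => V ((Ideal.absNorm J.1 : ℝ) * t) := by
    refine Summable.of_nonneg_of_le hVn (fun J => ?_)
      ((summable_PIdl (K := K) (σ := 2) (by norm_num)).mul_left (CV * t ^ (-(2 : ℝ))))
    refine (hVle _ (mul_pos (hJ1 J) ht)).trans (le_of_eq ?_)
    rw [Real.mul_rpow (hJ1 J).le ht.le]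
    ring
  have hsum1 : Summable fun J : PIdl K => Ψ (gen J) *
      ((V ((Ideal.absNorm J.1 : ℝ) * t) : ℝ) : ℂ) := by
    refine Summable.of_norm_bounded (hWs.mul_left B) fun J => ?_
    rw [norm_mul, Complex.norm_real, Real.norm_eq_abs, abs_of_nonneg (hVn J)]
    exact mul_le_mul_of_nonneg_right (hB _) (hVn J)
  refine ⟨hsum1, ?_⟩
  obtain ⟨τ, hτ⟩ : ∃ τ : ℝ, τ = (1 / 2) * Real.log t := ⟨_, rfl⟩
  have hcount : Countable (𝓞 K) := (coE K).countable_iff.mpr inferInstance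
  -- integrability
  have hi : ∀ x : {x : 𝓞 K // x ≠ 0},
      Integrable (fun θ => Ψ (gen (toP x)) * ((Ft (av x.1) (τ, θ) : ℝ) : ℂ))
        (volume.restrict (cube K)) := by
    intro x
    have h := (hint (av x.1) (av_pos x.2) t ht).1
    rw [← hτ] at h
    exact (h.const_mul _).restrict
  set r : {x : 𝓞 K // x ≠ 0} → ℝ := fun x =>
    ∫ θ in cube K, Ft (av x.1) (τ, θ) with hr
  have hrc : ∀ x : {x : 𝓞 K // x ≠ 0}, ((r x : ℝ) : ℂ) =
      ∫ θ in cube K, ((Ft (av x.1) (τ, θ) : ℝ) : ℂ) := by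
    intro x
    rw [hr, ← integral_complex_ofReal]
  have hJ0 : ∀ J : PIdl K, HasSum (fun z : torsion K × (Fin (rank K) → ℤ) =>
      ∫ θ in cube K, ((Ft (av (xE K (J, z)).1) (τ, θ) : ℝ) : ℂ))
      ((Nat.card (torsion K) : ℂ) *
        (c * ((V ((Ideal.absNorm J.1 : ℝ) * t) : ℝ) : ℂ))) := by
    intro J
    have h := unfold_JT ht hint J
    rw [← hτ] at h
    exact h
  have hrJ : ∀ J : PIdl K, HasSum (fun z : torsion K × (Fin (rank K) → ℤ) => r (xE K (J, z)))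
      (Nat.card (torsion K) * (c * V ((Ideal.absNorm J.1 : ℝ) * t))) := by
    intro J
    have h2 := Complex.hasSum_re (hJ0 J)
    have h3 : ((Nat.card (torsion K) : ℂ) *
        (c * ((V ((Ideal.absNorm J.1 : ℝ) * t) : ℝ) : ℂ))).re =
        Nat.card (torsion K) * (c * V ((Ideal.absNorm J.1 : ℝ) * t)) := by
      rw [← Complex.ofReal_natCast, ← Complex.ofReal_mul, ← Complex.ofReal_mul, Complex.ofReal_re]
    rw [h3] at h2
    refine h2.congr_fun fun z => ?_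
    rw [← hrc, Complex.ofReal_re]
  have hr0 : ∀ x, 0 ≤ r x := fun x => integral_nonneg fun p => Ft_nonneg (av_pos x.2) _
  have hsum : Summable fun x : {x : 𝓞 K // x ≠ 0} =>
      ∫ θ in cube K, ‖Ψ (gen (toP x)) * ((Ft (av x.1) (τ, θ) : ℝ) : ℂ)‖ := by
    have h1 : ∀ x : {x : 𝓞 K // x ≠ 0},
        ∫ θ in cube K, ‖Ψ (gen (toP x)) * ((Ft (av x.1) (τ, θ) : ℝ) : ℂ)‖ =
        ‖Ψ (gen (toP x))‖ * r x := by
      intro x
      have h0 : ∀ θ, ‖((Ft (av x.1) (τ, θ) : ℝ) : ℂ)‖ = Ft (av x.1) (τ, θ) := fun θ => by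
        rw [Complex.norm_real, Real.norm_eq_abs, abs_of_nonneg (Ft_nonneg (av_pos x.2) _)]
      simp_rw [norm_mul, h0]
      rw [integral_const_mul]
    simp_rw [h1]
    rw [← (xE K).summable_iff]
    refine (summable_prod_of_nonneg (fun z => mul_nonneg (norm_nonneg _) (hr0 _))).mpr ⟨?_, ?_⟩
    · intro J
      simp only [Function.comp_apply, toP_xE]
      exact (hrJ J).summable.mul_left _
    · have h2 : ∀ J : PIdl K, ∑' z : torsion K × (Fin (rank K) → ℤ),
          ((fun x : {x : 𝓞 K // x ≠ 0} => ‖Ψ (gen (toP x))‖ * r x) ∘ (xE K)) (J, z) =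
          ‖Ψ (gen J)‖ *
            (Nat.card (torsion K) * (c * V ((Ideal.absNorm J.1 : ℝ) * t))) := by
        intro J
        simp only [Function.comp_apply, toP_xE]
        rw [tsum_mul_left, (hrJ J).tsum_eq]
      have h8 : Summable fun J : PIdl K => ‖Ψ (gen J)‖ *
            (Nat.card (torsion K) * (c * V ((Ideal.absNorm J.1 : ℝ) * t))) := by
        refine Summable.of_nonneg_of_le (fun J => ?_) (fun J => ?_)
          (((hWs.mul_left c).mul_left (Nat.card (torsion K) : ℝ)).mul_left B)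
        · have := hVn J
          positivity
        · have h9 := hVn J
          exact mul_le_mul_of_nonneg_right (hB _) (by positivity)
      exact h8.congr fun J => (h2 J).symm
  have h5 := hasSum_integral_of_summable_integral_norm hi hsum
  have h6 : Summable fun z : PIdl K × (torsion K × (Fin (rank K) → ℤ)) =>
      ∫ θ in cube K, Ψ (gen (toP (xE K z))) *
        ((Ft (av (xE K z).1) (τ, θ) : ℝ) : ℂ) := (xE K).summable_iff.mpr h5.summable
  unfold Pool.Agent.J4H78.HG.hc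
  rw [← hτ]
  simp_rw [tc_eq hu]
  rw [← h5.tsum_eq, ← (xE K).tsum_eq, h6.tsum_prod, ← tsum_mul_left]
  refine tsum_congr fun J => ?_
  simp only [toP_xE]
  have h7 : ∀ z : torsion K × (Fin (rank K) → ℤ),
      ∫ θ in cube K, Ψ (gen J) * ((Ft (av (xE K (J, z)).1) (τ, θ) : ℝ) : ℂ) =
      Ψ (gen J) * ∫ θ in cube K, ((Ft (av (xE K (J, z)).1) (τ, θ) : ℝ) : ℂ) :=
    fun z => integral_const_mul _ _
  simp_rw [h7]
  rw [tsum_mul_left, (hJ0 J).tsum_eq]
  push_cast
  ring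

end Pool.Agent.J4H80.HG
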